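import Mathlib

/-!
# The stretch set of a Lipschitz map is rectifiable

Let `f` be non-constant and Lipschitz with optimal constant `L`. For a pair `(x, y)` of the stretch
set put `z = (x + y) / 2`, `h = (y - x) / 2`, `u = (f y - f x) / (2 L)`. Then `f` sends `z` to the
midpoint of `f x` and `f y`, and two applications of the parallelogram law give
`|h - h'| ^ 2 ≤ |z - z'| ^ 2 + |u - u'| ^ 2` for two such pairs. So the pair is a Lipschitz function
of `(z, u)`, which lies in a space of dimension `n + m`.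
-/

set_option autoImplicit false

namespace Pool.Agent.Results.MP_adfebc_an.StretchRect

open Set Filter Topology NNReal

/-- The optimal Lipschitz constant of `f`. -/
noncomputable def optLip {n m : ℕ} (f : EuclideanSpace ℝ (Fin n) → EuclideanSpace ℝ (Fin m)) : ℝ :=
  sInf {L : ℝ | 0 ≤ L ∧ ∀ x y, ‖f x - f y‖ ≤ L * ‖x - y‖}

/-- The stretch set of `f`: the pairs on which `f` attains its optimal Lipschitz constant. -/
def stretchSet {n m : ℕ} (f : EuclideanSpace ℝ (Fin n) → EuclideanSpace ℝ (Fin m)) :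
    Set (EuclideanSpace ℝ (Fin n) × EuclideanSpace ℝ (Fin n)) :=
  {p | ‖f p.1 - f p.2‖ = optLip f * ‖p.1 - p.2‖}

/-- `S` is covered by the images of countably many Lipschitz maps defined on `ℝ ^ k`, without
discarding any exceptional set. -/
def IsRect (k : ℕ) {X : Type*} [PseudoMetricSpace X] (S : Set X) : Prop :=
  ∃ ψ : ℕ → EuclideanSpace ℝ (Fin k) → X, (∀ i, ∃ K : ℝ≥0, LipschitzWith K (ψ i)) ∧
    S ⊆ ⋃ i, range (ψ i)

section key

variable {E F : Type*} [NormedAddCommGroup E] [InnerProductSpace ℝ E] [NormedAddCommGroup F]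
  [InnerProductSpace ℝ F]

theorem eq_of_norm_add {a b : F} {r : ℝ} (ha : ‖a‖ ≤ r) (hb : ‖b‖ ≤ r) (hab : ‖a + b‖ = 2 * r) :
    a = b := by
  have h1 := parallelogram_law_with_norm ℝ a b
  rw [hab] at h1
  have h2 : ‖a - b‖ * ‖a - b‖ ≤ 0 := by
    nlinarith [norm_nonneg a, norm_nonneg b, mul_le_mul ha ha (norm_nonneg a) ((norm_nonneg a).trans ha),
      mul_le_mul hb hb (norm_nonneg b) ((norm_nonneg b).trans hb)]
  have h3 : ‖a - b‖ = 0 := by nlinarith [norm_nonneg (a - b)]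
  exact sub_eq_zero.1 (norm_eq_zero.1 h3)

theorem key_ineq (g : E → F) (hg : ∀ x y, ‖g x - g y‖ ≤ ‖x - y‖) {z h z' h' : E} {u u' : F}
    (h1 : g (z + h) = g z + u) (h2 : g (z - h) = g z - u) (h3 : ‖u‖ = ‖h‖)
    (h1' : g (z' + h') = g z' + u') (h2' : g (z' - h') = g z' - u') (h3' : ‖u'‖ = ‖h'‖) :
    ‖h - h'‖ ^ 2 ≤ ‖z - z'‖ ^ 2 + ‖u - u'‖ ^ 2 := by
  have a1 := hg (z + h) (z' - h')
  have a2 := hg (z - h) (z' + h')
  rw [h1, h2'] at a1
  rw [h2, h1'] at a2
  have b1 : g z + u - (g z' - u') = (g z - g z') + (u + u') := by abel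
  have b2 : z + h - (z' - h') = (z - z') + (h + h') := by abel
  have b3 : g z - u - (g z' + u') = (g z - g z') - (u + u') := by abel
  have b4 : z - h - (z' + h') = (z - z') - (h + h') := by abel
  rw [b1, b2] at a1
  rw [b3, b4] at a2
  have c1 := parallelogram_law_with_norm ℝ (g z - g z') (u + u')
  have c2 := parallelogram_law_with_norm ℝ (z - z') (h + h')
  have c3 := parallelogram_law_with_norm ℝ u u'
  have c4 := parallelogram_law_with_norm ℝ h h'
  rw [h3, h3'] at c3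
  have d1 := mul_self_le_mul_self (norm_nonneg _) a1
  have d2 := mul_self_le_mul_self (norm_nonneg _) a2
  nlinarith [mul_self_nonneg ‖g z - g z'‖]

end key

variable {n m : ℕ} {f : EuclideanSpace ℝ (Fin n) → EuclideanSpace ℝ (Fin m)}

theorem optLip_spec (hf : ∃ K : ℝ≥0, LipschitzWith K f) (x y : EuclideanSpace ℝ (Fin n)) :
    ‖f x - f y‖ ≤ optLip f * ‖x - y‖ := by
  have hne : {L : ℝ | 0 ≤ L ∧ ∀ x y, ‖f x - f y‖ ≤ L * ‖x - y‖}.Nonempty := by
    obtain ⟨K, hK⟩ := hf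
    refine ⟨K, K.2, fun x y => ?_⟩
    simpa [dist_eq_norm] using hK.dist_le_mul x y
  rcases eq_or_ne x y with rfl | hxy
  · simp
  have hpos : 0 < ‖x - y‖ := norm_pos_iff.2 (sub_ne_zero.2 hxy)
  rw [← div_le_iff₀ hpos]
  refine le_csInf hne fun L hL => ?_
  rw [div_le_iff₀ hpos]
  exact hL.2 x y

theorem optLip_pos (hf : ∃ K : ℝ≥0, LipschitzWith K f) (hc : ∃ x y, f x ≠ f y) : 0 < optLip f := by
  obtain ⟨x, y, hxy⟩ := hc
  have h1 := optLip_spec hf x y
  have h2 : 0 < ‖f x - f y‖ := norm_pos_iff.2 (sub_ne_zero.2 hxy)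
  by_contra h
  push Not at h
  nlinarith [norm_nonneg (x - y)]

/-- The stretch set of every non-constant Lipschitz map from `ℝ ^ n` to `ℝ ^ m` is
`(n + m)`-rectifiable, in the strong sense. -/
theorem result (n m : ℕ) (f : EuclideanSpace ℝ (Fin n) → EuclideanSpace ℝ (Fin m))
    (hf : ∃ K : ℝ≥0, LipschitzWith K f) (hc : ∃ x y, f x ≠ f y) :
    IsRect (n + m) (stretchSet f) := by
  set L := optLip f with hL
  have hLpos : 0 < L := optLip_pos hf hc
  have hspec := optLip_spec hf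
  -- the normalised map
  let g : EuclideanSpace ℝ (Fin n) → EuclideanSpace ℝ (Fin m) := fun x => L⁻¹ • f x
  have hg : ∀ x y, ‖g x - g y‖ ≤ ‖x - y‖ := by
    intro x y
    have : g x - g y = L⁻¹ • (f x - f y) := by simp [g, smul_sub]
    rw [this, norm_smul, Real.norm_of_nonneg (inv_nonneg.2 hLpos.le), inv_mul_le_iff₀ hLpos]
    exact hspec x y
  have hgΓ : ∀ p ∈ stretchSet f, ‖g p.2 - g p.1‖ = ‖p.2 - p.1‖ := by
    intro p hp
    have : g p.2 - g p.1 = L⁻¹ • (f p.2 - f p.1) := by simp [g, smul_sub]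
    have hp' : ‖f p.1 - f p.2‖ = L * ‖p.1 - p.2‖ := hp
    rw [this, norm_smul, Real.norm_of_nonneg (inv_nonneg.2 hLpos.le), norm_sub_rev, hp',
      ← mul_assoc, inv_mul_cancel₀ hLpos.ne', one_mul, norm_sub_rev]
  -- coordinates
  let Z : EuclideanSpace ℝ (Fin n) × EuclideanSpace ℝ (Fin n) → EuclideanSpace ℝ (Fin n) :=
    fun p => (1 / 2 : ℝ) • (p.1 + p.2)
  let H : EuclideanSpace ℝ (Fin n) × EuclideanSpace ℝ (Fin n) → EuclideanSpace ℝ (Fin n) :=
    fun p => (1 / 2 : ℝ) • (p.2 - p.1)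
  let U : EuclideanSpace ℝ (Fin n) × EuclideanSpace ℝ (Fin n) → EuclideanSpace ℝ (Fin m) :=
    fun p => (1 / 2 : ℝ) • (g p.2 - g p.1)
  have hZH : ∀ p, Z p + H p = p.2 := by
    intro p
    simp only [Z, H, ← smul_add]
    rw [show p.1 + p.2 + (p.2 - p.1) = (2 : ℝ) • p.2 by rw [two_smul]; abel, smul_smul]
    norm_num
  have hZH' : ∀ p, Z p - H p = p.1 := by
    intro p
    simp only [Z, H, ← smul_sub]
    rw [show p.1 + p.2 - (p.2 - p.1) = (2 : ℝ) • p.1 by rw [two_smul]; abel, smul_smul]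
    norm_num
  have hmid : ∀ p ∈ stretchSet f, g (Z p + H p) = g (Z p) + U p ∧ g (Z p - H p) = g (Z p) - U p ∧
      ‖U p‖ = ‖H p‖ := by
    intro p hp
    have e1 : ‖g p.2 - g (Z p)‖ ≤ ‖H p‖ := by
      have := hg p.2 (Z p)
      rwa [show p.2 - Z p = H p by rw [← hZH p]; abel] at this
    have e2 : ‖g (Z p) - g p.1‖ ≤ ‖H p‖ := by
      have := hg (Z p) p.1
      rwa [show Z p - p.1 = H p by rw [← hZH' p]; abel] at this
    have e3 : ‖H p‖ = 1 / 2 * ‖p.2 - p.1‖ := by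
      simp only [H, norm_smul]; norm_num
    have e4 : ‖(g p.2 - g (Z p)) + (g (Z p) - g p.1)‖ = 2 * ‖H p‖ := by
      rw [show (g p.2 - g (Z p)) + (g (Z p) - g p.1) = g p.2 - g p.1 by abel, hgΓ p hp, e3]
      ring
    have e5 := eq_of_norm_add e1 e2 e4
    have e6 : U p = g p.2 - g (Z p) := by
      simp only [U]
      rw [show g p.2 - g p.1 = (g p.2 - g (Z p)) + (g (Z p) - g p.1) by abel, ← e5, ← two_smul ℝ,
        smul_smul]
      norm_num
    refine ⟨?_, ?_, ?_⟩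
    · rw [hZH, e6]; abel
    · rw [hZH', e6, e5]; abel
    · simp only [U, H, norm_smul, hgΓ p hp]
  -- the inverse map is Lipschitz
  let Φ : EuclideanSpace ℝ (Fin n) × EuclideanSpace ℝ (Fin n) →
    EuclideanSpace ℝ (Fin n) × EuclideanSpace ℝ (Fin m) := fun p => (Z p, U p)
  have hkey : ∀ p ∈ stretchSet f, ∀ q ∈ stretchSet f, dist p q ≤ 3 * dist (Φ p) (Φ q) := by
    intro p hp q hq
    obtain ⟨p1, p2, p3⟩ := hmid p hp
    obtain ⟨q1, q2, q3⟩ := hmid q hq
    have k := key_ineq g hg p1 p2 p3 q1 q2 q3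
    have k1 : ‖Z p - Z q‖ ≤ dist (Φ p) (Φ q) := by
      rw [← dist_eq_norm]; exact le_max_left _ _
    have k2 : ‖U p - U q‖ ≤ dist (Φ p) (Φ q) := by
      rw [← dist_eq_norm]; exact le_max_right _ _
    have k0 : 0 ≤ dist (Φ p) (Φ q) := dist_nonneg
    have k3 : ‖H p - H q‖ ≤ 2 * dist (Φ p) (Φ q) := by
      refine abs_le_of_sq_le_sq' ?_ (by positivity) |>.2
      nlinarith [norm_nonneg (Z p - Z q), norm_nonneg (U p - U q)]
    refine max_le ?_ ?_
    · rw [dist_eq_norm, ← hZH' p, ← hZH' q]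
      calc ‖Z p - H p - (Z q - H q)‖ = ‖(Z p - Z q) - (H p - H q)‖ := by congr 1; abel
        _ ≤ ‖Z p - Z q‖ + ‖H p - H q‖ := norm_sub_le _ _
        _ ≤ _ := by linarith
    · rw [dist_eq_norm, ← hZH p, ← hZH q]
      calc ‖Z p + H p - (Z q + H q)‖ = ‖(Z p - Z q) + (H p - H q)‖ := by congr 1; abel
        _ ≤ ‖Z p - Z q‖ + ‖H p - H q‖ := norm_add_le _ _
        _ ≤ _ := by linarith
  classical
  -- a left inverse on the image
  have hinv : ∃ ψ : EuclideanSpace ℝ (Fin n) × EuclideanSpace ℝ (Fin m) →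
      EuclideanSpace ℝ (Fin n) × EuclideanSpace ℝ (Fin n),
      ∀ p ∈ stretchSet f, ψ (Φ p) = p := by
    refine ⟨fun w => if h : ∃ p, p ∈ stretchSet f ∧ Φ p = w then h.choose else 0, ?_⟩
    intro p hp
    have hex : ∃ q, q ∈ stretchSet f ∧ Φ q = Φ p := ⟨p, hp, rfl⟩
    simp only [dif_pos hex]
    have h1 := hex.choose_spec
    have h2 := hkey _ h1.1 p hp
    rw [h1.2, dist_self, mul_zero] at h2
    exact dist_le_zero.1 h2
  obtain ⟨ψ, hψ⟩ := hinv
  have hLip : LipschitzOnWith 3 ψ (Φ '' stretchSet f) := by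
    refine LipschitzOnWith.of_dist_le_mul ?_
    rintro _ ⟨p, hp, rfl⟩ _ ⟨q, hq, rfl⟩
    rw [hψ p hp, hψ q hq]
    exact hkey p hp q hq
  obtain ⟨ψ', hψ', heq⟩ := hLip.extend_finite_dimension
  have hfin : Module.finrank ℝ (EuclideanSpace ℝ (Fin (n + m))) =
      Module.finrank ℝ (EuclideanSpace ℝ (Fin n) × EuclideanSpace ℝ (Fin m)) := by
    simp
  let e : EuclideanSpace ℝ (Fin (n + m)) ≃L[ℝ]
      EuclideanSpace ℝ (Fin n) × EuclideanSpace ℝ (Fin m) := ContinuousLinearEquiv.ofFinrankEq hfin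
  refine ⟨fun _ => ψ' ∘ e, fun _ => ⟨_, hψ'.comp e.lipschitz⟩, ?_⟩
  intro p hp
  rw [mem_iUnion]
  refine ⟨0, e.symm (Φ p), ?_⟩
  simp only [Function.comp_apply, ContinuousLinearEquiv.apply_symm_apply]
  rw [← heq (mem_image_of_mem Φ hp), hψ p hp]

end Pool.Agent.Results.MP_adfebc_an.StretchRect
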